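import Pool.Agent.DPS.Stmts

/-!
Row SUP of the squad DPS (MP_d97b4e_co): support of `Q(Y) K (ind {G})`.
-/

namespace Pool.Agent.DPS.H81

open Finset Polynomial

lemma sw_inter {n k : ℕ} (a b : Fin n) (F : KS n k) (G : Finset (Fin n)) :
    (F.1 ∩ G).card ≤ ((sw a b F).1 ∩ G).card + 1 := by
  have hmem : ∀ x, x ∈ (sw a b F).1 ↔ Equiv.swap a b x ∈ F.1 := by
    intro x
    unfold sw
    simp only [Finset.mem_map, Equiv.coe_toEmbedding]
    constructor
    · rintro ⟨z, hz, rfl⟩
      simpa using hz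
    · intro h
      exact ⟨_, h, by simp⟩
  by_cases hb : b ∈ F.1
  · by_cases ha : a ∈ F.1
    · have : F.1 ∩ G ⊆ (sw a b F).1 ∩ G := by
        intro x hx
        rw [Finset.mem_inter] at hx ⊢
        refine ⟨(hmem x).2 ?_, hx.2⟩
        by_cases h1 : x = a
        · rw [h1, Equiv.swap_apply_left]; exact hb
        · by_cases h2 : x = b
          · rw [h2, Equiv.swap_apply_right]; exact ha
          · rw [Equiv.swap_apply_of_ne_of_ne h1 h2]; exact hx.1
      exact le_trans (Finset.card_le_card this) (Nat.le_succ _)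
    · have : (F.1 ∩ G).erase b ⊆ (sw a b F).1 ∩ G := by
        intro x hx
        rw [Finset.mem_erase, Finset.mem_inter] at hx
        rw [Finset.mem_inter]
        refine ⟨(hmem x).2 ?_, hx.2.2⟩
        have h1 : x ≠ a := fun h => ha (h ▸ hx.2.1)
        rw [Equiv.swap_apply_of_ne_of_ne h1 hx.1]
        exact hx.2.1
      have h2 := Finset.card_le_card this
      have h3 := Finset.pred_card_le_card_erase (s := F.1 ∩ G) (a := b)
      omega
  · have : (F.1 ∩ G).erase a ⊆ (sw a b F).1 ∩ G := by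
      intro x hx
      rw [Finset.mem_erase, Finset.mem_inter] at hx
      rw [Finset.mem_inter]
      refine ⟨(hmem x).2 ?_, hx.2.2⟩
      have h1 : x ≠ b := fun h => hb (h ▸ hx.2.1)
      rw [Equiv.swap_apply_of_ne_of_ne hx.1 h1]
      exact hx.2.1
    have h2 := Finset.card_le_card this
    have h3 := Finset.pred_card_le_card_erase (s := F.1 ∩ G) (a := a)
    omega

lemma Y_apply (n k : ℕ) (u : KS n k → ℝ) (F : KS n k) :
    Y n k u F = (1 / 2) * ∑ a : Fin n, ∑ b : Fin n, (u F - u (sw a b F)) := rfl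

lemma Y_supp (n k m : ℕ) (G : Finset (Fin n)) (u : KS n k → ℝ)
    (hu : ∀ F : KS n k, m < (F.1 ∩ G).card → u F = 0) (F : KS n k)
    (hF : m + 1 < (F.1 ∩ G).card) : Y n k u F = 0 := by
  rw [Y_apply]
  have h0 : u F = 0 := hu F (by omega)
  have : ∑ a : Fin n, ∑ b : Fin n, (u F - u (sw a b F)) = 0 := by
    refine Finset.sum_eq_zero fun a _ => Finset.sum_eq_zero fun b _ => ?_
    have h1 := sw_inter a b F G
    rw [h0, hu (sw a b F) (by omega), sub_zero]
  rw [this, mul_zero]

lemma Ypow_supp (n k : ℕ) (G : KS n k) (i : ℕ) :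
    ∀ F : KS n k, i < (F.1 ∩ G.1).card → ((Y n k) ^ i) (K n k (ind {G})) F = 0 := by
  induction i with
  | zero =>
    intro F hF
    rw [pow_zero]
    change K n k (ind {G}) F = 0
    change (∑ G' : KS n k, if Disjoint F.1 G'.1 then ind {G} G' else 0) = 0
    refine Finset.sum_eq_zero fun G' _ => ?_
    by_cases hd : Disjoint F.1 G'.1
    · rw [if_pos hd]
      unfold ind
      rw [if_neg]
      intro h
      rw [Finset.mem_singleton] at h
      rw [h, Finset.disjoint_iff_inter_eq_empty] at hd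
      rw [hd, Finset.card_empty] at hF
      exact absurd hF (lt_irrefl _)
    · rw [if_neg hd]
  | succ i ih =>
    intro F hF
    rw [pow_succ']
    exact Y_supp n k i G.1 _ ih F hF

theorem sup : SUPStmt := by
  intro n k t Q F G hQ hFG
  rw [Polynomial.aeval_eq_sum_range, LinearMap.sum_apply, Finset.sum_apply]
  refine Finset.sum_eq_zero fun i hi => ?_
  rw [Finset.mem_range] at hi
  rw [LinearMap.smul_apply, Pi.smul_apply, Ypow_supp n k G i F (by omega), smul_zero]

end Pool.Agent.DPS.H81
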