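import Pool.Agent.DPS.Stmts

/-!
Row WIM of the squad DPS (MP_d97b4e_co): the coefficients of Wilson's inequality decrease in `j`.
-/

namespace Pool.Agent.DPS.H81

open Finset

lemma prodA (j t : ℕ) (h : t < j) :
    ∏ m ∈ Finset.Icc 1 t, (((j : ℝ) + 1 - m) / ((j : ℝ) - m)) = (j : ℝ) / ((j : ℝ) - t) := by
  induction t with
  | zero =>
    have hj : (j : ℝ) ≠ 0 := by
      have : j ≠ 0 := by omega
      exact_mod_cast this
    simp [div_self hj]
  | succ t ih =>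
    have hlt : ((t + 1 : ℕ) : ℝ) < (j : ℝ) := by exact_mod_cast h
    have hlt0 : (t : ℝ) < (j : ℝ) := by
      have : t < j := by omega
      exact_mod_cast this
    rw [Finset.prod_Icc_succ_top (by omega), ih (by omega)]
    have h1 : (j : ℝ) - t ≠ 0 := by
      have : 0 < (j : ℝ) - t := by linarith
      exact this.ne'
    have h2 : (j : ℝ) - ((t + 1 : ℕ) : ℝ) ≠ 0 := by
      have : 0 < (j : ℝ) - ((t + 1 : ℕ) : ℝ) := by linarith
      exact this.ne'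
    have h3 : (j : ℝ) + 1 - ((t + 1 : ℕ) : ℝ) = (j : ℝ) - t := by push_cast; ring
    rw [h3, div_mul_div_comm, mul_comm (j : ℝ) ((j : ℝ) - t), mul_div_mul_left _ _ h1]

lemma kapStep (n k j : ℕ) (hk : j + 1 ≤ k) (hn : 2 * k ≤ n) :
    |kap n k (j + 1)| * ((n : ℝ) - k - j) = |kap n k j| * ((k : ℝ) - j) := by
  obtain ⟨a, ha⟩ : ∃ a, k - j = a + 1 := ⟨k - j - 1, by omega⟩
  obtain ⟨N, hN⟩ : ∃ N, n - k - j = N + 1 := ⟨n - k - j - 1, by omega⟩
  have ha' : k - (j + 1) = a := by omega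
  have hN' : n - k - (j + 1) = N := by omega
  have e1 : |kap n k (j + 1)| = (N.choose a : ℝ) := by
    unfold kap
    rw [hN', ha', abs_mul, abs_pow, abs_neg, abs_one, one_pow, one_mul, Nat.abs_cast]
  have e2 : |kap n k j| = ((N + 1).choose (a + 1) : ℝ) := by
    unfold kap
    rw [hN, ha, abs_mul, abs_pow, abs_neg, abs_one, one_pow, one_mul, Nat.abs_cast]
  have e3 : (n : ℝ) - k - j = (N : ℝ) + 1 := by
    have : n = N + 1 + j + k := by omega
    rw [this]; push_cast; ring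
  have e4 : (k : ℝ) - j = (a : ℝ) + 1 := by
    have : k = a + 1 + j := by omega
    rw [this]; push_cast; ring
  have e5 := Nat.add_one_mul_choose_eq N a
  have e6 : ((N : ℝ) + 1) * (N.choose a : ℝ) = ((N + 1).choose (a + 1) : ℝ) * ((a : ℝ) + 1) := by
    exact_mod_cast e5
  rw [e1, e2, e3, e4, mul_comm]
  exact e6

theorem wim : WIMStmt := by
  intro n k t j l ht hj hk hn hl
  have hl1 : 1 ≤ l := (Finset.mem_Icc.1 hl).1
  have hlt : l ≤ t := (Finset.mem_Icc.1 hl).2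
  obtain ⟨b, hb⟩ : ∃ b, j = t + 1 + b := ⟨j - t - 1, by omega⟩
  obtain ⟨a, ha⟩ : ∃ a, k = j + 1 + a := ⟨k - j - 1, by omega⟩
  obtain ⟨s, hs⟩ : ∃ s, t = s + 1 := ⟨t - 1, by omega⟩
  have hn2 : 2 * k ≤ n := by
    refine le_trans ?_ hn
    have hkt : k - t + 1 = b + a + 3 := by omega
    rw [hkt]
    subst hb; subst ha; subst hs
    nlinarith [Nat.zero_le (s * b), Nat.zero_le (s * a)]
  -- reals
  have hnR : ((t : ℝ) + 1) * ((k : ℝ) - t + 1) ≤ (n : ℝ) := by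
    have h : (((t + 1) * (k - t + 1) : ℕ) : ℝ) ≤ (n : ℝ) := by exact_mod_cast hn
    rw [Nat.cast_mul, Nat.cast_add, Nat.cast_add, Nat.cast_sub (by omega), Nat.cast_one] at h
    exact h
  have hn2R : 2 * (k : ℝ) ≤ (n : ℝ) := by exact_mod_cast hn2
  have htR : (1 : ℝ) ≤ (t : ℝ) := by exact_mod_cast ht
  have hjR : (t : ℝ) + 1 ≤ (j : ℝ) := by exact_mod_cast hj
  have hkR : (j : ℝ) + 1 ≤ (k : ℝ) := by exact_mod_cast hk
  have hl1R : (1 : ℝ) ≤ (l : ℝ) := by exact_mod_cast hl1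
  have hltR : (l : ℝ) ≤ (t : ℝ) := by exact_mod_cast hlt
  -- the main numerical inequality
  have hA : 0 < (k : ℝ) - j := by linarith
  have hNge : (t : ℝ) * ((k : ℝ) - j) + ((t : ℝ) - 1) * ((j : ℝ) - t - 1) ≤ (n : ℝ) - k - j := by
    nlinarith [hnR]
  have hN0 : 0 < (n : ℝ) - k - j := by
    have h1 : 0 < (t : ℝ) * ((k : ℝ) - j) := mul_pos (by linarith) hA
    have h2 : 0 ≤ ((t : ℝ) - 1) * ((j : ℝ) - t - 1) := mul_nonneg (by linarith) (by linarith)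
    linarith
  have hB : 0 < (j : ℝ) - t := by linarith
  have hmain : ((k : ℝ) - j) * ((j : ℝ) - 1) ≤ ((n : ℝ) - k - j) * ((j : ℝ) - t) := by
    have h1 : ((t : ℝ) * ((k : ℝ) - j) + ((t : ℝ) - 1) * ((j : ℝ) - t - 1)) * ((j : ℝ) - t)
        ≤ ((n : ℝ) - k - j) * ((j : ℝ) - t) := mul_le_mul_of_nonneg_right hNge hB.le
    have h2 : 0 ≤ ((t : ℝ) - 1) * (((k : ℝ) - j + ((j : ℝ) - t)) * ((j : ℝ) - t - 1)) :=
      mul_nonneg (by linarith) (mul_nonneg (by linarith) (by linarith))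
    have h3 : ((t : ℝ) * ((k : ℝ) - j) + ((t : ℝ) - 1) * ((j : ℝ) - t - 1)) * ((j : ℝ) - t)
        - ((k : ℝ) - j) * ((j : ℝ) - 1)
        = ((t : ℝ) - 1) * (((k : ℝ) - j + ((j : ℝ) - t)) * ((j : ℝ) - t - 1)) := by ring
    linarith
  -- the product R
  have hR : (∏ m ∈ (Finset.Icc 1 t).erase l, (((j : ℝ) + 1 - m) / ((j : ℝ) - m)))
      = ((j : ℝ) / ((j : ℝ) - t)) * (((j : ℝ) - l) / ((j : ℝ) + 1 - l)) := by
    have h1 := Finset.mul_prod_erase (Finset.Icc 1 t)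
      (fun m : ℕ => ((j : ℝ) + 1 - m) / ((j : ℝ) - m)) hl
    rw [prodA j t (by omega)] at h1
    have hjl : 0 < (j : ℝ) - l := by linarith
    have hjl1 : 0 < (j : ℝ) + 1 - l := by linarith
    rw [← h1]
    rw [mul_comm (((j : ℝ) + 1 - l) / ((j : ℝ) - l)) _, mul_assoc, div_mul_div_comm,
      mul_comm ((j : ℝ) + 1 - l) ((j : ℝ) - l), div_self (mul_pos hjl hjl1).ne', mul_one]
  have hRle : (((k : ℝ) - j) / ((n : ℝ) - k - j)) *
      (∏ m ∈ (Finset.Icc 1 t).erase l, (((j : ℝ) + 1 - m) / ((j : ℝ) - m))) ≤ 1 := by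
    rw [hR]
    have hjl : 0 < (j : ℝ) - l := by linarith
    have hjl1 : 0 < (j : ℝ) + 1 - l := by linarith
    rw [div_mul_div_comm, div_mul_div_comm, div_le_one (mul_pos hN0 (mul_pos hB hjl1))]
    have h4 : (j : ℝ) * ((j : ℝ) - l) ≤ ((j : ℝ) - 1) * ((j : ℝ) + 1 - l) := by nlinarith
    calc ((k : ℝ) - j) * ((j : ℝ) * ((j : ℝ) - l))
        ≤ ((k : ℝ) - j) * (((j : ℝ) - 1) * ((j : ℝ) + 1 - l)) :=
          mul_le_mul_of_nonneg_left h4 hA.le
      _ = (((k : ℝ) - j) * ((j : ℝ) - 1)) * ((j : ℝ) + 1 - l) := by ring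
      _ ≤ (((n : ℝ) - k - j) * ((j : ℝ) - t)) * ((j : ℝ) + 1 - l) :=
          mul_le_mul_of_nonneg_right hmain hjl1.le
      _ = ((n : ℝ) - k - j) * (((j : ℝ) - t) * ((j : ℝ) + 1 - l)) := by ring
  -- the factors
  have hP : ∏ m ∈ (Finset.Icc 1 t).erase l, (|y n (j + 1) - y n m| / |y n l - y n m|)
      ≤ (∏ m ∈ (Finset.Icc 1 t).erase l, (((j : ℝ) + 1 - m) / ((j : ℝ) - m))) *
        ∏ m ∈ (Finset.Icc 1 t).erase l, (|y n j - y n m| / |y n l - y n m|) := by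
    rw [← Finset.prod_mul_distrib]
    refine Finset.prod_le_prod (fun m _ => div_nonneg (abs_nonneg _) (abs_nonneg _)) ?_
    intro m hm
    have hm' := Finset.mem_Icc.1 (Finset.mem_of_mem_erase hm)
    have hm1 : (1 : ℝ) ≤ (m : ℝ) := by exact_mod_cast hm'.1
    have hmt : (m : ℝ) ≤ (t : ℝ) := by exact_mod_cast hm'.2
    have hjm : 0 < (j : ℝ) - m := by linarith
    have hjm1 : 0 < (j : ℝ) + 1 - m := by linarith
    have hnm : 0 < (n : ℝ) - j - m := by linarith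
    have e1 : |y n (j + 1) - y n m| = ((j : ℝ) + 1 - m) * ((n : ℝ) - j - m) := by
      have : y n (j + 1) - y n m = ((j : ℝ) + 1 - m) * ((n : ℝ) - j - m) := by
        unfold y; push_cast; ring
      rw [this, abs_of_pos (mul_pos hjm1 hnm)]
    have e2 : |y n j - y n m| = ((j : ℝ) - m) * ((n : ℝ) + 1 - j - m) := by
      have : y n j - y n m = ((j : ℝ) - m) * ((n : ℝ) + 1 - j - m) := by
        unfold y; ring
      rw [this, abs_of_pos (mul_pos hjm (by linarith))]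
    rw [e1, e2, ← mul_div_assoc]
    refine div_le_div_of_nonneg_right ?_ (abs_nonneg _)
    have e3 : ((j : ℝ) + 1 - m) / ((j : ℝ) - m) * (((j : ℝ) - m) * ((n : ℝ) + 1 - j - m))
        = ((j : ℝ) + 1 - m) * ((n : ℝ) + 1 - j - m) := by
      rw [← mul_assoc, div_mul_cancel₀ _ hjm.ne']
    rw [e3]
    exact mul_le_mul_of_nonneg_left (by linarith) hjm1.le
  have hK : |kap n k (j + 1) / kap n k l|
      = |kap n k j / kap n k l| * (((k : ℝ) - j) / ((n : ℝ) - k - j)) := by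
    have h := kapStep n k j hk hn2
    have h' : |kap n k (j + 1)| = |kap n k j| * (((k : ℝ) - j) / ((n : ℝ) - k - j)) := by
      rw [← mul_div_assoc, eq_div_iff hN0.ne']
      exact h
    rw [abs_div, abs_div, h']
    ring
  unfold cc
  rw [hK]
  set K0 := |kap n k j / kap n k l| with hK0
  set P0 := ∏ m ∈ (Finset.Icc 1 t).erase l, (|y n j - y n m| / |y n l - y n m|) with hP0
  set R := ∏ m ∈ (Finset.Icc 1 t).erase l, (((j : ℝ) + 1 - m) / ((j : ℝ) - m)) with hRdef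
  have hK0n : 0 ≤ K0 := abs_nonneg _
  have hP0n : 0 ≤ P0 := Finset.prod_nonneg fun m _ => div_nonneg (abs_nonneg _) (abs_nonneg _)
  have hq : 0 ≤ ((k : ℝ) - j) / ((n : ℝ) - k - j) := div_nonneg hA.le hN0.le
  calc K0 * (((k : ℝ) - j) / ((n : ℝ) - k - j)) *
        ∏ m ∈ (Finset.Icc 1 t).erase l, (|y n (j + 1) - y n m| / |y n l - y n m|)
      ≤ K0 * (((k : ℝ) - j) / ((n : ℝ) - k - j)) * (R * P0) :=
        mul_le_mul_of_nonneg_left hP (mul_nonneg hK0n hq)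
    _ = (K0 * P0) * ((((k : ℝ) - j) / ((n : ℝ) - k - j)) * R) := by ring
    _ ≤ (K0 * P0) * 1 := mul_le_mul_of_nonneg_left hRle (mul_nonneg hK0n hP0n)
    _ = K0 * P0 := mul_one _

end Pool.Agent.DPS.H81
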